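import Mathlib

/-!
# Baire paratopological groups: countably pracompact implies 2-pseudocompact, pseudocompact does not

(Q2) Let `D` be dense in `G` with every infinite subset of `D` having an accumulation point, and let `U n` be
decreasing nonempty open sets. By Baire there is `g` with `g ∈ z U n`, `z ∈ D`, for infinitely many `n`. If
`y` is an accumulation point of these `z` then `g⁻¹ y` is in the closure of every `(U n)⁻¹`.

(Q1) Let `f` be a homomorphism of the circle onto the hyperreal numbers, all of whose fibres are dense, and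
take as basic neighbourhoods of `x` the sets `{y ∈ W | f x ≤ f y}`, `W` a usual neighbourhood of `x`. This is a
pseudocompact Baire group topology because countable sets of hyperreals are bounded; the sets
`{y | |y| < 1/n, 1 ≤ f y}` show that it is not 2-pseudocompact.
-/

set_option autoImplicit false
set_option linter.style.haveILetI false
set_option warn.classDefReducibility false

open Topology Filter Set

namespace Pool.Agent.Results.MP_39d387_al.BaireTwoPseudocompact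

universe u

/-- `X` is countably pracompact: there is a dense set `D` such that every infinite subset of `D` has an
accumulation point in `X`. -/
def CountablyPracompact (X : Type u) [TopologicalSpace X] : Prop :=
  ∃ D : Set X, Dense D ∧ ∀ B : Set X, B ⊆ D → B.Infinite → ∃ x : X, ∀ V ∈ 𝓝 x, (B ∩ V).Infinite

/-- `X` is pseudocompact: every locally finite family of nonempty open sets is finite. -/
def Pseudocompact (X : Type u) [TopologicalSpace X] : Prop :=
  ∀ (ι : Type u) (U : ι → Set X), (∀ i, IsOpen (U i)) → (∀ i, (U i).Nonempty) → LocallyFinite U →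
    Finite ι

/-- `G` is 2-pseudocompact. -/
def TwoPseudocompact (G : Type u) [Group G] [TopologicalSpace G] : Prop :=
  ∀ U : ℕ → Set G, (∀ n, IsOpen (U n)) → (∀ n, (U n).Nonempty) → (∀ n, U (n + 1) ⊆ U n) →
    (⋂ n, closure {x | x⁻¹ ∈ U n}).Nonempty

theorem q2 {G : Type u} [Group G] [TopologicalSpace G] [ContinuousMul G] [BaireSpace G]
    (h : CountablyPracompact G) : TwoPseudocompact G := by
  intro U ho hne hU
  have hanti : Antitone U := antitone_nat_of_succ_le hU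
  obtain ⟨D, hD, hB⟩ := h
  let O : ℕ → Set G := fun m => {g | ∃ n, m ≤ n ∧ ∃ z ∈ D, z⁻¹ * g ∈ U n}
  have hO : ∀ m, IsOpen (O m) := by
    intro m
    have : O m = ⋃ n : {n // m ≤ n}, ⋃ z : D, (fun g => (z : G)⁻¹ * g) ⁻¹' U n := by
      ext g
      simp only [O, mem_ofPred_eq, mem_iUnion, mem_preimage]
      constructor
      · rintro ⟨n, hn, z, hz, h⟩
        exact ⟨⟨n, hn⟩, ⟨z, hz⟩, h⟩
      · rintro ⟨⟨n, hn⟩, ⟨z, hz⟩, h⟩
        exact ⟨n, hn, z, hz, h⟩
    rw [this]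
    exact isOpen_iUnion fun n => isOpen_iUnion fun z => (ho n).preimage (continuous_const_mul _)
  have hOd : ∀ m, Dense (O m) := by
    intro m
    rw [dense_iff_inter_open]
    rintro W hW ⟨w, hw⟩
    obtain ⟨x, hx⟩ := hne m
    have h1 : IsOpen ((fun z => z * x) ⁻¹' W) := hW.preimage (continuous_mul_const _)
    obtain ⟨z, hz1, hz2⟩ := hD.inter_open_nonempty _ h1 ⟨w * x⁻¹, by simpa using hw⟩
    exact ⟨z * x, hz1, m, le_rfl, z, hz2, by simpa using hx⟩
  have hd : Dense (⋂ m, O m) := dense_iInter_of_isOpen_nat hO hOd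
  obtain ⟨x0, hx0⟩ := hne 0
  obtain ⟨g, -, hg⟩ := hd.inter_open_nonempty univ isOpen_univ ⟨x0, trivial⟩
  rw [mem_iInter] at hg
  choose n hn z hzD hz using hg
  have hcl : ∃ y, ∀ V ∈ 𝓝 y, {m | z m ∈ V}.Infinite := by
    by_cases hr : (range z).Infinite
    · obtain ⟨y, hy⟩ := hB (range z) (by rintro _ ⟨i, rfl⟩; exact hzD i) hr
      refine ⟨y, fun V hV hfin => hy V hV ?_⟩
      refine (hfin.image z).subset ?_
      rintro _ ⟨⟨m, rfl⟩, hm⟩
      exact ⟨m, hm, rfl⟩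
    · rw [not_infinite] at hr
      haveI : Finite (range z) := hr
      obtain ⟨⟨_, m0, rfl⟩, hy⟩ := Finite.exists_infinite_fiber (fun m => (⟨z m, m, rfl⟩ : range z))
      rw [Set.infinite_coe_iff] at hy
      refine ⟨z m0, fun V hV => hy.mono ?_⟩
      intro i hi
      have h1 : z i = z m0 := congrArg Subtype.val hi
      show z i ∈ V
      rw [h1]
      exact mem_of_mem_nhds hV
  obtain ⟨y, hy⟩ := hcl
  refine ⟨g⁻¹ * y, ?_⟩
  rw [mem_iInter]
  intro k
  rw [mem_closure_iff_nhds]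
  intro T hT
  have h1 : (fun x => g⁻¹ * x) ⁻¹' T ∈ 𝓝 y := (continuous_const_mul g⁻¹).continuousAt hT
  obtain ⟨m, hm, hkm⟩ := (hy _ h1).exists_gt k
  refine ⟨g⁻¹ * z m, hm, ?_⟩
  show (g⁻¹ * z m)⁻¹ ∈ U k
  have h2 : (g⁻¹ * z m)⁻¹ = (z m)⁻¹ * g := by group
  rw [h2]
  exact hanti (hkm.le.trans (hn m)) (hz m)

/-! ### The hyperreal numbers -/

/-- the hyperreal numbers -/
abbrev R := Hyperreal

theorem bounded_countable (x : ℕ → R) : ∃ b : R, ∀ n, x n ≤ b := by
  have h : ∀ n, ∃ a : ℕ → ℝ, Hyperreal.ofSeq a = x n := fun n => by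
    obtain ⟨a, ha⟩ := Quotient.exists_rep (x n)
    exact ⟨a, ha⟩
  choose a ha using h
  refine ⟨Hyperreal.ofSeq fun k => ∑ j ∈ Finset.range (k + 1), |a j k|, fun n => ?_⟩
  rw [← ha n]
  refine Filter.Germ.coe_le.2 ?_
  have h1 : ∀ᶠ k in (hyperfilter ℕ : Filter ℕ), n ≤ k := by
    have h2 : {k : ℕ | ¬ n ≤ k}.Finite := (Set.finite_lt_nat n).subset fun k hk => not_le.1 hk
    exact Filter.mem_hyperfilter_of_finite_compl (by simpa [compl_ofPred] using h2)
  filter_upwards [h1] with k hk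
  calc a n k ≤ |a n k| := le_abs_self _
    _ ≤ ∑ j ∈ Finset.range (k + 1), |a j k| :=
      Finset.single_le_sum (f := fun j => |a j k|) (fun j _ => abs_nonneg _)
        (Finset.mem_range.2 (by omega))

theorem card_R : Cardinal.mk R ≤ Cardinal.continuum := by
  have h : Function.Surjective (Hyperreal.ofSeq) := fun x => by
    obtain ⟨a, ha⟩ := Quotient.exists_rep x
    exact ⟨a, ha⟩
  have := Cardinal.mk_le_of_surjective h
  refine this.trans ?_
  simp [Cardinal.mk_real]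

theorem exists_phi : ∃ φ : ℝ →ₗ[ℚ] R, φ 1 = 0 ∧ Function.Surjective φ := by
  set N := Submodule.span ℚ {(1 : ℝ)} with hN
  have h1 : Module.rank ℚ (ℝ ⧸ N) + Module.rank ℚ N = Cardinal.continuum := by
    rw [Submodule.rank_quotient_add_rank, Real.rank_rat_real]
  have h2 : Module.rank ℚ N ≤ 1 := (rank_span_le _).trans (by simp)
  have h3 : Cardinal.continuum ≤ Module.rank ℚ (ℝ ⧸ N) := by
    by_contra hlt
    rw [not_le] at hlt
    have := Cardinal.add_lt_of_lt Cardinal.aleph0_le_continuum hlt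
      (lt_of_le_of_lt h2 (Cardinal.one_lt_aleph0.trans_le Cardinal.aleph0_le_continuum))
    rw [h1] at this
    exact lt_irrefl _ this
  let bV := Module.Basis.ofVectorSpace ℚ (ℝ ⧸ N)
  let bR := Module.Basis.ofVectorSpace ℚ R
  have h4 : Cardinal.mk (Module.Basis.ofVectorSpaceIndex ℚ R) ≤
      Cardinal.mk (Module.Basis.ofVectorSpaceIndex ℚ (ℝ ⧸ N)) := by
    rw [bV.mk_eq_rank'']
    exact (Cardinal.mk_set_le _).trans (card_R.trans h3)
  obtain ⟨e⟩ := h4
  let L : (ℝ ⧸ N) →ₗ[ℚ] R := bV.constr ℚ (Function.extend e bR 0)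
  have hL : Function.Surjective L := by
    rw [← LinearMap.range_eq_top, eq_top_iff, ← bR.span_eq, Submodule.span_le]
    rintro _ ⟨i, rfl⟩
    refine ⟨bV (e i), ?_⟩
    rw [Module.Basis.constr_basis, e.injective.extend_apply]
  refine ⟨L ∘ₗ N.mkQ, ?_, hL.comp (Submodule.mkQ_surjective N)⟩
  have : N.mkQ (1 : ℝ) = 0 := by
    rw [Submodule.mkQ_apply, Submodule.Quotient.mk_eq_zero]
    exact Submodule.mem_span_singleton_self 1
  rw [LinearMap.comp_apply, this, map_zero]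

/-- the circle -/
abbrev K := UnitAddCircle

theorem exists_hom : ∃ f : K →+ R, ∀ (W : Set K), IsOpen W → W.Nonempty → ∀ q : R, ∃ x ∈ W, f x = q := by
  obtain ⟨φ, h1, hs⟩ := exists_phi
  have hφ : ∀ r : ℚ, φ (r : ℝ) = 0 := fun r => by
    have : (r : ℝ) = r • (1 : ℝ) := by simp [Rat.smul_def]
    rw [this, map_smul, h1, smul_zero]
  let f : K →+ R := QuotientAddGroup.lift (AddSubgroup.zmultiples (1 : ℝ)) φ.toAddMonoidHom (by
    intro x hx
    obtain ⟨n, hn⟩ := AddSubgroup.mem_zmultiples_iff.1 hx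
    rw [AddMonoidHom.mem_ker, ← hn]
    have : (n • (1 : ℝ)) = ((n : ℚ) : ℝ) := by simp
    rw [this]
    exact hφ n)
  have hf : ∀ x : ℝ, f (x : K) = φ x := fun x => rfl
  have hdense : DenseRange (fun r : ℚ => ((r : ℝ) : K)) := by
    have h2 : DenseRange ((↑) : ℝ → K) := Function.Surjective.denseRange Quotient.mk_surjective
    exact h2.comp Rat.denseRange_cast (AddCircle.continuous_mk' 1)
  refine ⟨f, fun W hW hne q => ?_⟩
  obtain ⟨x, hx⟩ := hs q
  have hW' : IsOpen ((fun y : K => (x : K) + y) ⁻¹' W) := hW.preimage (continuous_const_add _)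
  have hne' : ((fun y : K => (x : K) + y) ⁻¹' W).Nonempty := by
    obtain ⟨w, hw⟩ := hne
    exact ⟨-(x : K) + w, by simpa using hw⟩
  obtain ⟨r, hr⟩ := hdense.exists_mem_open hW' hne'
  refine ⟨(x : K) + ((r : ℝ) : K), hr, ?_⟩
  rw [map_add, hf, hf, hφ, hx, add_zero]

/-! ### The topology -/

/-- the topology with basic neighbourhoods `{y ∈ W | f x ≤ f y}` of `x` -/
def tG (f : K →+ R) : TopologicalSpace K where
  IsOpen S := ∀ x ∈ S, ∃ W, IsOpen W ∧ x ∈ W ∧ ∀ y ∈ W, f x ≤ f y → y ∈ S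
  isOpen_univ := fun x _ => ⟨univ, isOpen_univ, trivial, fun _ _ _ => trivial⟩
  isOpen_inter := by
    rintro S T hS hT x ⟨hxS, hxT⟩
    obtain ⟨W, hW, hxW, h1⟩ := hS x hxS
    obtain ⟨W', hW', hxW', h2⟩ := hT x hxT
    exact ⟨W ∩ W', hW.inter hW', ⟨hxW, hxW'⟩, fun y hy hf => ⟨h1 y hy.1 hf, h2 y hy.2 hf⟩⟩
  isOpen_sUnion := by
    rintro 𝒮 h x ⟨S, hS, hxS⟩
    obtain ⟨W, hW, hxW, h1⟩ := h S hS x hxS
    exact ⟨W, hW, hxW, fun y hy hf => ⟨S, hS, h1 y hy hf⟩⟩

theorem isOpen_tG (f : K →+ R) (S : Set K) :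
    IsOpen[tG f] S ↔ ∀ x ∈ S, ∃ W, IsOpen W ∧ x ∈ W ∧ ∀ y ∈ W, f x ≤ f y → y ∈ S := Iff.rfl

theorem isOpen_basic (f : K →+ R) (W : Set K) (hW : IsOpen W) (r : R) :
    IsOpen[tG f] {y | y ∈ W ∧ r ≤ f y} := by
  rw [isOpen_tG]
  rintro x ⟨hx, hr⟩
  exact ⟨W, hW, hx, fun y hy h => ⟨hy, hr.trans h⟩⟩

theorem mem_nhds_tG (f : K →+ R) (x : K) (U : Set K) :
    U ∈ @nhds K (tG f) x ↔ ∃ W, IsOpen W ∧ x ∈ W ∧ ∀ y ∈ W, f x ≤ f y → y ∈ U := by
  rw [@mem_nhds_iff K (tG f) x U]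
  constructor
  · rintro ⟨T, hTU, hT, hxT⟩
    obtain ⟨W, hW, hxW, h⟩ := (isOpen_tG f T).1 hT x hxT
    exact ⟨W, hW, hxW, fun y hy hf => hTU (h y hy hf)⟩
  · rintro ⟨W, hW, hxW, h⟩
    exact ⟨{y | y ∈ W ∧ f x ≤ f y}, fun y hy => h y hy.1 hy.2, isOpen_basic f W hW _, hxW, le_rfl⟩

theorem tG_le (f : K →+ R) : tG f ≤ (inferInstance : TopologicalSpace K) := by
  intro S hS
  exact fun x hx => ⟨S, hS, hx, fun y hy _ => hy⟩

theorem continuousAdd_tG (f : K →+ R) : @ContinuousAdd K (tG f) _ := by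
  refine @ContinuousAdd.mk K (tG f) _ ?_
  rw [@continuous_iff_continuousAt _ _ (@instTopologicalSpaceProd K K (tG f) (tG f)) (tG f)]
  rintro ⟨x, y⟩
  intro U hU
  obtain ⟨W, hW, hxW, h⟩ := (mem_nhds_tG f _ U).1 hU
  obtain ⟨W1, W2, hW1, hW2, hx, hy, h12⟩ := isOpen_prod_iff.1 (hW.preimage continuous_add) x y hxW
  rw [mem_map, @nhds_prod_eq K K (tG f) (tG f)]
  refine mem_of_superset (prod_mem_prod ((mem_nhds_tG f x {z | z ∈ W1 ∧ f x ≤ f z}).2
    ⟨W1, hW1, hx, fun z hz hf => ⟨hz, hf⟩⟩) ((mem_nhds_tG f y {z | z ∈ W2 ∧ f y ≤ f z}).2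
    ⟨W2, hW2, hy, fun z hz hf => ⟨hz, hf⟩⟩)) ?_
  rintro ⟨a, b⟩ ⟨⟨ha, ha'⟩, ⟨hb, hb'⟩⟩
  refine h (a + b) (h12 (show (a, b) ∈ W1 ×ˢ W2 from ⟨ha, hb⟩)) ?_
  rw [map_add, map_add]
  exact add_le_add ha' hb'

section

variable (f : K →+ R) (hf : ∀ (W : Set K), IsOpen W → W.Nonempty → ∀ q : R, ∃ x ∈ W, f x = q)

include hf

theorem pseudocompact_tG : @Pseudocompact K (tG f) := by
  haveI : Fact ((0 : ℝ) < 1) := ⟨zero_lt_one⟩
  intro ι U ho hne hlf
  by_contra hfin
  rw [not_finite_iff_infinite] at hfin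
  let c : ℕ ↪ ι := Infinite.natEmbedding ι
  have h1 : ∀ n, ∃ x ∈ U (c n), ∃ W, IsOpen W ∧ x ∈ W ∧ ∀ y ∈ W, f x ≤ f y → y ∈ U (c n) := by
    intro n
    obtain ⟨x, hx⟩ := hne (c n)
    exact ⟨x, hx, (isOpen_tG f _).1 (ho (c n)) x hx⟩
  choose x hx W hW hxW hWU using h1
  obtain ⟨y, hy⟩ := exists_clusterPt_of_compactSpace (map x atTop)
  obtain ⟨V, hV, hVf⟩ := hlf y
  obtain ⟨T, hT, hyT, hTV⟩ := (mem_nhds_tG f y V).1 hV
  have h2 : ∃ᶠ n in atTop, x n ∈ T := mapClusterPt_iff_frequently.1 hy T (hT.mem_nhds hyT)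
  have h3 : {n | x n ∈ T}.Infinite := Nat.frequently_atTop_iff_infinite.1 h2
  refine (h3.image (f := c) c.injective.injOn) (hVf.subset ?_)
  rintro _ ⟨n, hn, rfl⟩
  obtain ⟨z, ⟨hzT, hzW⟩, hz⟩ := hf (T ∩ W n) (hT.inter (hW n)) ⟨x n, hn, hxW n⟩ (max (f y) (f (x n)))
  exact ⟨z, hWU n z hzW (hz ▸ le_max_right _ _), hTV z hzT (hz ▸ le_max_left _ _)⟩

theorem baire_tG : @BaireSpace K (tG f) := by
  haveI : Fact ((0 : ℝ) < 1) := ⟨zero_lt_one⟩
  obtain ⟨b, hbc, hbe, hb⟩ := TopologicalSpace.exists_countable_basis K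
  have hbne : b.Nonempty := by
    obtain ⟨B, hB, -, -⟩ := hb.exists_subset_of_mem_open (mem_univ (0 : K)) isOpen_univ
    exact ⟨B, hB⟩
  haveI : Countable b := hbc.to_subtype
  haveI : Nonempty b := hbne.to_subtype
  obtain ⟨β, hβ⟩ := exists_surjective_nat b
  have hβo : ∀ j, IsOpen (β j : Set K) := fun j => hb.isOpen (β j).2
  have hβn : ∀ j, (β j : Set K).Nonempty := fun j => nonempty_iff_ne_empty.2 fun h => hbe (h ▸ (β j).2)
  -- a dense open set contains `{y ∈ O' | r ≤ f y}`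
  have key : ∀ O : Set K, IsOpen[tG f] O → @Dense K (tG f) O → ∃ (O' : Set K) (r : R), IsOpen O' ∧
      Dense O' ∧ ∀ y ∈ O', r ≤ f y → y ∈ O := by
    intro O hO hOd
    have h1 : ∀ j, ∃ x ∈ (β j : Set K), ∃ W, IsOpen W ∧ x ∈ W ∧ ∀ y ∈ W, f x ≤ f y → y ∈ O := by
      intro j
      obtain ⟨x, hx1, hx2⟩ := @Dense.inter_open_nonempty K (tG f) O hOd (β j) (tG_le f _ (hβo j)) (hβn j)
      exact ⟨x, hx1, (isOpen_tG f O).1 hO x hx2⟩
    choose x hx W hW hxW hWO using h1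
    obtain ⟨r, hr⟩ := bounded_countable fun j => f (x j)
    refine ⟨⋃ j, W j, r, isOpen_iUnion hW, ?_, ?_⟩
    · rw [dense_iff_inter_open]
      rintro T hT ⟨t, ht⟩
      obtain ⟨B, hB, htB, hBT⟩ := hb.exists_subset_of_mem_open ht hT
      obtain ⟨j, hj⟩ := hβ ⟨B, hB⟩
      refine ⟨x j, hBT ?_, mem_iUnion.2 ⟨j, hxW j⟩⟩
      have := hx j
      rwa [hj] at this
    · intro y hy hry
      obtain ⟨j, hj⟩ := mem_iUnion.1 hy
      exact hWO j y hj ((hr j).trans hry)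
  refine @BaireSpace.mk K (tG f) ?_
  intro O hO hOd
  choose O' r hO' hO'd hr using fun n => key (O n) (hO n) (hOd n)
  obtain ⟨r0, hr0⟩ := bounded_countable r
  rw [@dense_iff_inter_open K (tG f)]
  rintro U hU ⟨u, hu⟩
  obtain ⟨W, hW, huW, hWU⟩ := (isOpen_tG f U).1 hU u hu
  -- a positive bound
  obtain ⟨q, hq1, hq2⟩ : ∃ q : R, r0 ≤ q ∧ f u ≤ q := ⟨max r0 (f u), le_max_left _ _, le_max_right _ _⟩
  suffices h : ∃ y ∈ W, (∀ n, y ∈ O' n) ∧ q ≤ f y by
    obtain ⟨y, hyW, hyO, hqy⟩ := h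
    exact ⟨y, hWU y hyW (hq2.trans hqy), mem_iInter.2 fun n => hr n y (hyO n) ((hr0 n).trans (hq1.trans hqy))⟩
  by_contra hcon
  push Not at hcon
  -- `c = w + w'` with `f c = 2 q`
  have h2 : IsOpen ((fun z : K => z - u) ⁻¹' W) := hW.preimage (continuous_id.sub continuous_const)
  obtain ⟨c, hc, hfc⟩ := hf _ h2 ⟨u + u, by simpa using huW⟩ (q + q)
  have hΓ : Dense (⋂ n, O' n) := dense_iInter_of_isOpen_nat hO' hO'd
  have h3 : IsOpen (W ∩ (fun z : K => c - z) ⁻¹' W) :=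
    hW.inter (hW.preimage (continuous_const.sub continuous_id))
  have h4 : Dense (⋂ n, (O' n ∩ (fun z : K => c - z) ⁻¹' (O' n))) := by
    apply dense_iInter_of_isOpen_nat
    · exact fun n => (hO' n).inter ((hO' n).preimage (continuous_const.sub continuous_id))
    · intro n
      refine (hO'd n).inter_of_isOpen_left ?_ (hO' n)
      exact (hO'd n).preimage (Homeomorph.subLeft c).isOpenMap
  obtain ⟨y, ⟨hy1, hy2⟩, hy3⟩ := h4.inter_open_nonempty _ h3 ⟨u, huW, hc⟩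
  rw [mem_iInter] at hy3
  have h5 := hcon y hy1 fun n => (hy3 n).1
  have h6 := hcon (c - y) hy2 fun n => (hy3 n).2
  rw [map_sub, hfc] at h6
  have h7 : f y + (q + q - f y) < q + q := add_lt_add h5 h6
  rw [add_sub_cancel] at h7
  exact lt_irrefl _ h7

end

theorem no_point (f : K →+ R) (p : K) (hp : ∀ n : ℕ, ∀ W : Set K, IsOpen W → p ∈ W →
    ∃ y ∈ W, f p ≤ f y ∧ (-y ∈ Metric.ball (0 : K) (1 / (n + 1)) ∧ 1 ≤ f (-y))) : False := by
  have hp0 : p = 0 := by
    by_contra hne0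
    have hpos : 0 < ‖p‖ := norm_pos_iff.2 hne0
    obtain ⟨n, hn⟩ := exists_nat_gt (1 / (‖p‖ / 2))
    obtain ⟨y, hy1, -, hy3⟩ := hp n (Metric.ball p (‖p‖ / 2)) Metric.isOpen_ball
      (Metric.mem_ball_self (by positivity))
    have h1 := hy3.1
    rw [mem_ball_zero_iff, norm_neg] at h1
    rw [mem_ball_iff_norm] at hy1
    have h2 : 1 / ((n : ℝ) + 1) < ‖p‖ / 2 := by
      rw [div_lt_iff₀ (by positivity)]
      rw [div_lt_iff₀ (by positivity)] at hn
      nlinarith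
    have h3 : ‖p‖ ≤ ‖p - y‖ + ‖y‖ := by
      have := norm_add_le (p - y) y
      rwa [sub_add_cancel] at this
    rw [norm_sub_rev] at h3
    linarith
  obtain ⟨y, -, hy2, hy3⟩ := hp 0 univ isOpen_univ trivial
  have h1 := hy3.2
  rw [hp0, map_zero] at hy2
  rw [map_neg] at h1
  have h2 : (1 : R) ≤ 0 := h1.trans (neg_nonpos.2 hy2)
  exact absurd h2 (not_le.2 one_pos)

/-- (1) Every countably pracompact Baire paratopological group is 2-pseudocompact. (2) There is a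
pseudocompact Baire Hausdorff abelian paratopological group which is not 2-pseudocompact. -/
theorem result :
    (∀ (G : Type u) [Group G] [TopologicalSpace G] [ContinuousMul G], CountablyPracompact G →
      BaireSpace G → TwoPseudocompact G) ∧
    ∃ (G : Type) (_ : CommGroup G) (_ : TopologicalSpace G) (_ : ContinuousMul G) (_ : T2Space G),
      Pseudocompact G ∧ BaireSpace G ∧ ¬ TwoPseudocompact G := by
  refine ⟨fun G _ _ _ h1 h2 => q2 h1, ?_⟩
  obtain ⟨f, hf⟩ := exists_hom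
  let t : TopologicalSpace (Multiplicative K) := tG f
  have hm : @ContinuousMul (Multiplicative K) t _ := by
    letI : TopologicalSpace K := tG f
    haveI : ContinuousAdd K := continuousAdd_tG f
    exact inferInstanceAs (ContinuousMul (Multiplicative K))
  refine ⟨Multiplicative K, inferInstance, t, hm, ?_, pseudocompact_tG f hf, baire_tG f hf, ?_⟩
  · exact t2Space_antitone (tG_le f) (inferInstanceAs (T2Space K))
  · intro h
    let U : ℕ → Set K := fun n => {y | y ∈ Metric.ball (0 : K) (1 / (n + 1)) ∧ 1 ≤ f y}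
    have hU : ∀ n, IsOpen[tG f] (U n) := fun n => isOpen_basic f _ Metric.isOpen_ball 1
    have hne : ∀ n, (U n).Nonempty := by
      intro n
      obtain ⟨y, hy, hfy⟩ := hf (Metric.ball (0 : K) (1 / (n + 1))) Metric.isOpen_ball
        ⟨0, Metric.mem_ball_self (by positivity)⟩ 1
      exact ⟨y, hy, hfy.ge⟩
    have hanti : ∀ n, U (n + 1) ⊆ U n := by
      rintro n y ⟨hy, hy'⟩
      refine ⟨Metric.ball_subset_ball ?_ hy, hy'⟩
      push_cast
      exact one_div_le_one_div_of_le (by positivity) (by linarith)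
    obtain ⟨p, hp⟩ := h U hU hne hanti
    rw [mem_iInter] at hp
    refine no_point f p fun n W hW hpW => ?_
    have h1 := (@mem_closure_iff_nhds K (tG f) _ _).1 (hp n) {y | y ∈ W ∧ f p ≤ f y}
      ((mem_nhds_tG f p _).2 ⟨W, hW, hpW, fun y hy hf => ⟨hy, hf⟩⟩)
    obtain ⟨y, ⟨hy1, hy2⟩, hy3⟩ := h1
    exact ⟨y, hy1, hy2, hy3⟩

end Pool.Agent.Results.MP_39d387_al.BaireTwoPseudocompact
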